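import Mathlib
import Pool.Agent.Helper947.Crv.H4
import Pool.Agent.Helper947.Crv.F7
import Pool.Agent.Helper947.Crv.Z6
import Pool.Agent.Helper947.Hil.Final

set_option autoImplicit false

open CategoryTheory CategoryTheory.Limits AlgebraicGeometry
open Pool.Agent.Helper947.Crv

namespace Pool.Agent.Results.MP_cbec7f_ag.MovedComponent

theorem exists_moving {ω : AlgebraicClosure ℚ} (hω : ω ^ 2 + ω + 1 = 0) :
    ∃ σ : AlgebraicClosure ℚ ≃ₐ[ℚ] AlgebraicClosure ℚ, σ ω ≠ ω := by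
  by_contra hcon0
  have hcon : ∀ σ : AlgebraicClosure ℚ ≃ₐ[ℚ] AlgebraicClosure ℚ, σ ω = ω :=
    fun σ => by_contra fun h => hcon0 ⟨σ, h⟩
  have h1 : ω ∈ (algebraMap ℚ (AlgebraicClosure ℚ)).range := by
    have halg : Algebra.IsAlgebraic ℚ (AlgebraicClosure ℚ) := AlgebraicClosure.isAlgebraic ℚ
    have : IsSepClosure ℚ (AlgebraicClosure ℚ) := ⟨inferInstance, inferInstance⟩
    have : IsGalois ℚ (AlgebraicClosure ℚ) := inferInstance
    have := (InfiniteGalois.mem_bot_iff_fixed (k := ℚ) (K := AlgebraicClosure ℚ) ω).2 hcon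
    rwa [IntermediateField.mem_bot] at this
  obtain ⟨q, rfl⟩ := h1
  have h2 : (algebraMap ℚ (AlgebraicClosure ℚ)) (q ^ 2 + q + 1) = 0 := by
    simpa using hω
  have h3 : q ^ 2 + q + 1 = 0 :=
    (map_eq_zero_iff _ (algebraMap ℚ (AlgebraicClosure ℚ)).injective).1 h2
  nlinarith [sq_nonneg (2 * q + 1)]

theorem exists_omega : ∃ ω : AlgebraicClosure ℚ, ω ^ 2 + ω + 1 = 0 := by
  obtain ⟨ω, hω⟩ := IsAlgClosed.exists_root
    (Polynomial.X ^ 2 + Polynomial.X + 1 : Polynomial (AlgebraicClosure ℚ)) (by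
      have : (Polynomial.X ^ 2 + Polynomial.X + 1 :
          Polynomial (AlgebraicClosure ℚ)).degree = 2 := by
        compute_degree!
      rw [this]
      norm_num)
  refine ⟨ω, ?_⟩
  simpa [Polynomial.IsRoot] using hω

theorem key (𝓗 : HilbertScheme 32 (-1067)) (ω : AlgebraicClosure ℚ) (hω : ω ^ 2 + ω + 1 = 0) :
    ∃ x : HilbPt 32 (-1067) (AlgebraicClosure ℚ), x.I = (macCfg ω).J0 ∧
      ∀ Z ∈ irreducibleComponents (bc 𝓗 (AlgebraicClosure ℚ)), ptOf 𝓗 x ∈ Z →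
        ∀ σ : AlgebraicClosure ℚ ≃ₐ[ℚ] AlgebraicClosure ℚ, σ ω ≠ ω →
          galAct 𝓗 σ.toRingEquiv '' Z ≠ Z := by
  obtain ⟨x, hx⟩ := exists_pt (d := 32) (g := -1067) (macCfg_good hω)
    (by norm_num) (by rw [macE_card]; norm_num)
  exact ⟨x, hx, fun Z hZ hxZ σ hσ => main_mac hω 𝓗 x hx hZ hxZ σ.toRingEquiv hσ⟩

/-- The Hilbert scheme of curves of degree 32 and arithmetic genus -1067 in projective 3-space
exists, and has a component over the algebraic numbers which is not fixed by the Galois group: all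
components which contain the point of the explicit curve given by `macCfg ω`, `ω` a primitive cube
root of unity, are moved by all automorphisms which move `ω`. -/
theorem result :
    Nonempty (HilbertScheme 32 (-1067)) ∧
    ∀ 𝓗 : HilbertScheme 32 (-1067),
      (∃ Z ∈ irreducibleComponents (bc 𝓗 (AlgebraicClosure ℚ)),
        ∃ σ : AlgebraicClosure ℚ ≃ₐ[ℚ] AlgebraicClosure ℚ,
          galAct 𝓗 σ.toRingEquiv '' Z ≠ Z) ∧
      (∃ ω : AlgebraicClosure ℚ, ω ^ 2 + ω + 1 = 0) ∧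
      ∀ ω : AlgebraicClosure ℚ, ω ^ 2 + ω + 1 = 0 →
        ∃ x : HilbPt 32 (-1067) (AlgebraicClosure ℚ), x.I = (macCfg ω).J0 ∧
          ∀ Z ∈ irreducibleComponents (bc 𝓗 (AlgebraicClosure ℚ)), ptOf 𝓗 x ∈ Z →
            (∃ σ : AlgebraicClosure ℚ ≃ₐ[ℚ] AlgebraicClosure ℚ,
              galAct 𝓗 σ.toRingEquiv '' Z ≠ Z) ∧
            ∀ σ : AlgebraicClosure ℚ ≃ₐ[ℚ] AlgebraicClosure ℚ, σ ω ≠ ω →
              galAct 𝓗 σ.toRingEquiv '' Z ≠ Z := by
  refine ⟨?_, fun 𝓗 => ⟨?_, exists_omega, fun ω hω => ?_⟩⟩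
  · have h := Pool.Agent.Helper947.Hil.hilbert_scheme_exists 32 1068
    norm_num at h
    exact h
  · obtain ⟨ω, hω⟩ := exists_omega
    obtain ⟨x, -, h⟩ := key 𝓗 ω hω
    obtain ⟨σ, hσ⟩ := exists_moving hω
    exact ⟨_, irreducibleComponent_mem_irreducibleComponents (ptOf 𝓗 x), σ,
      h _ (irreducibleComponent_mem_irreducibleComponents _) mem_irreducibleComponent σ hσ⟩
  · obtain ⟨x, hx, h⟩ := key 𝓗 ω hω
    obtain ⟨σ, hσ⟩ := exists_moving hω
    exact ⟨x, hx, fun Z hZ hxZ => ⟨⟨σ, h Z hZ hxZ σ hσ⟩, h Z hZ hxZ⟩⟩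

end Pool.Agent.Results.MP_cbec7f_ag.MovedComponent
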