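import Mathlib
import Pool.Agent.Helper947.Crv.H4
import Pool.Agent.Helper947.Crv.F7
import Pool.Agent.Helper947.Crv.Z6

set_option autoImplicit false

open CategoryTheory CategoryTheory.Limits AlgebraicGeometry
open Pool.Agent.Helper947.Crv

namespace Pool.Agent.Results.MP_cbec7f_ag.NotFixed

theorem exists_moving {ω : AlgebraicClosure ℚ} (hω : ω ^ 2 + ω + 1 = 0) :
    ∃ σ : AlgebraicClosure ℚ ≃ₐ[ℚ] AlgebraicClosure ℚ, σ ω ≠ ω := by
  by_contra hcon0
  have hcon : ∀ σ : AlgebraicClosure ℚ ≃ₐ[ℚ] AlgebraicClosure ℚ, σ ω = ω :=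
    fun σ => by_contra fun h => hcon0 ⟨σ, h⟩
  have h1 : ω ∈ (algebraMap ℚ (AlgebraicClosure ℚ)).range := by
    have halg : Algebra.IsAlgebraic ℚ (AlgebraicClosure ℚ) := AlgebraicClosure.isAlgebraic ℚ
    have : IsSepClosure ℚ (AlgebraicClosure ℚ) := ⟨inferInstance, inferInstance⟩
    have : IsGalois ℚ (AlgebraicClosure ℚ) := inferInstance
    have := (InfiniteGalois.mem_bot_iff_fixed (k := ℚ) (K := AlgebraicClosure ℚ) ω).2 hcon
    rwa [IntermediateField.mem_bot] at this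
  obtain ⟨q, rfl⟩ := h1
  have h2 : (algebraMap ℚ (AlgebraicClosure ℚ)) (q ^ 2 + q + 1) = 0 := by
    simpa using hω
  have h3 : q ^ 2 + q + 1 = 0 :=
    (map_eq_zero_iff _ (algebraMap ℚ (AlgebraicClosure ℚ)).injective).1 h2
  nlinarith [sq_nonneg (2 * q + 1)]

/-- The Hilbert scheme of curves of degree 32 and arithmetic genus -1067 in projective 3-space has
components over the algebraic numbers which are not fixed by the Galois group: all components
which contain the point of the explicit curve given by `macCfg ω`, `ω` a primitive cube root of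
unity, are moved by all automorphisms which move `ω`. -/
theorem result :
    (∃ ω : AlgebraicClosure ℚ, ω ^ 2 + ω + 1 = 0) ∧
    ∀ (𝓗 : HilbertScheme 32 (-1067)) (ω : AlgebraicClosure ℚ), ω ^ 2 + ω + 1 = 0 →
      ∃ x : HilbPt 32 (-1067) (AlgebraicClosure ℚ), x.I = (macCfg ω).J0 ∧
        (∃ Z ∈ irreducibleComponents (bc 𝓗 (AlgebraicClosure ℚ)), ptOf 𝓗 x ∈ Z) ∧
        ∀ Z ∈ irreducibleComponents (bc 𝓗 (AlgebraicClosure ℚ)), ptOf 𝓗 x ∈ Z →
          (∃ σ : AlgebraicClosure ℚ ≃ₐ[ℚ] AlgebraicClosure ℚ,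
            galAct 𝓗 σ.toRingEquiv '' Z ≠ Z) ∧
          ∀ σ : AlgebraicClosure ℚ ≃ₐ[ℚ] AlgebraicClosure ℚ, σ ω ≠ ω →
            galAct 𝓗 σ.toRingEquiv '' Z ≠ Z := by
  refine ⟨?_, fun 𝓗 ω hω => ?_⟩
  · obtain ⟨ω, hω⟩ := IsAlgClosed.exists_root
      (Polynomial.X ^ 2 + Polynomial.X + 1 : Polynomial (AlgebraicClosure ℚ)) (by
        have : (Polynomial.X ^ 2 + Polynomial.X + 1 :
            Polynomial (AlgebraicClosure ℚ)).degree = 2 := by
          compute_degree!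
        rw [this]
        norm_num)
    refine ⟨ω, ?_⟩
    simpa [Polynomial.IsRoot] using hω
  · obtain ⟨x, hx⟩ := exists_pt (d := 32) (g := -1067) (macCfg_good hω)
      (by norm_num) (by rw [macE_card]; norm_num)
    refine ⟨x, hx, ?_, ?_⟩
    · exact ⟨irreducibleComponent (ptOf 𝓗 x), irreducibleComponent_mem_irreducibleComponents _,
        mem_irreducibleComponent⟩
    · intro Z hZ hxZ
      have key : ∀ σ : AlgebraicClosure ℚ ≃ₐ[ℚ] AlgebraicClosure ℚ, σ ω ≠ ω →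
          galAct 𝓗 σ.toRingEquiv '' Z ≠ Z :=
        fun σ hσ => main_mac hω 𝓗 x hx hZ hxZ σ.toRingEquiv hσ
      obtain ⟨σ, hσ⟩ := exists_moving hω
      exact ⟨⟨σ, key σ hσ⟩, key⟩

end Pool.Agent.Results.MP_cbec7f_ag.NotFixed
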